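import Pool.Agent.Q234.KG.Stm

/-!
# Project KG, job FX: the fixed point (after Pool.Agent.Q275.KT.FX)
-/

set_option autoImplicit false

open scoped BigOperators Topology
open Finset Filter Pool.Agent.Q234.KG

namespace Pool.Agent.Q237.KG.FX

variable {V : Type} [Fintype V] [DecidableEq V] {d : ℕ} [NeZero d]

theorem exists_ne {m : V → Fin d} (h : m ≠ 0) : ∃ x, m x ≠ 0 := by
  by_contra hh
  push Not at hh
  exact h (funext hh)

theorem le_nb {r : ℝ} (hr : 1 ≤ r) (t : Finset V → ℕ) (x : V) (c : (V → Fin d) → ℂ)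
    (m : V → Fin d) (hx : m x ≠ 0) : ‖c m‖ ≤ nb r t x c := by
  have h0 : (0 : ℝ) ≤ r := by linarith
  have h1 : ‖c m‖ ≤ ((sp m).card : ℝ) * ‖c m‖ * r ^ t (sp m) := by
    have h2 : (1 : ℝ) ≤ (sp m).card := by
      exact_mod_cast Finset.card_pos.2 ⟨x, Finset.mem_filter.2 ⟨Finset.mem_univ x, hx⟩⟩
    have h3 : (1 : ℝ) ≤ r ^ t (sp m) := one_le_pow₀ hr
    calc ‖c m‖ = 1 * ‖c m‖ * 1 := by ring
      _ ≤ ((sp m).card : ℝ) * ‖c m‖ * r ^ t (sp m) := by gcongr
  refine h1.trans ?_
  exact Finset.single_le_sum (f := fun m : V → Fin d => ((sp m).card : ℝ) * ‖c m‖ * r ^ t (sp m))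
    (fun m _ => by positivity) (Finset.mem_filter.2 ⟨Finset.mem_univ m, hx⟩)

theorem main : FixS := by
  intro d _ V _ _ t r δ T hr hδ hT0 hinv hcon
  have hr0 : (0 : ℝ) ≤ r := by linarith
  set G : ℕ → (V → Fin d) → ℂ := fun k => T^[k] 0 with hG
  have hGs (k : ℕ) : G (k + 1) = T (G k) := Function.iterate_succ_apply' T k 0
  have hG0 : G 0 = 0 := rfl
  have nb0 (x : V) : nb r t x (0 : (V → Fin d) → ℂ) = 0 := by
    unfold nb
    simp
  have hGn (k : ℕ) : ∀ x, nb r t x (G k) ≤ δ := by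
    induction k with
    | zero => intro x; rw [hG0, nb0]; exact hδ
    | succ k ih => intro x; rw [hGs]; exact hinv _ ih x
  have hGd (k : ℕ) : ∀ x, nb r t x (fun X => G (k + 1) X - G k X) ≤ δ / 2 ^ k := by
    induction k with
    | zero =>
      intro x
      have e : (fun X => G (0 + 1) X - G 0 X) = G 1 := by
        funext X
        rw [hG0]
        simp
      rw [e, pow_zero, div_one]
      exact hGn 1 x
    | succ k ih =>
      intro x
      have h := hcon (G (k + 1)) (G k) (δ / 2 ^ k) (hGn _) (hGn _) ih x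
      rw [← hGs, ← hGs] at h
      refine h.trans (le_of_eq ?_)
      rw [pow_succ]
      field_simp
  have hGe (k : ℕ) : G k 0 = 0 := by
    rcases k with _ | k
    · rfl
    · rw [hGs]; exact hT0 _
  have hGX (X : V → Fin d) (k : ℕ) : dist (G k X) (G (k + 1) X) ≤ (2 * δ) / 2 / 2 ^ k := by
    rw [mul_div_cancel_left₀ _ (two_ne_zero' ℝ), dist_comm, dist_eq_norm]
    by_cases hX : X = 0
    · subst hX
      rw [hGe, hGe, sub_zero, norm_zero]
      positivity
    · obtain ⟨x, hx⟩ := exists_ne hX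
      exact (le_nb hr t x (fun X => G (k + 1) X - G k X) X hx).trans (hGd k x)
  have hlim (X : V → Fin d) : ∃ a : ℂ, Tendsto (fun k => G k X) atTop (𝓝 a) :=
    cauchySeq_tendsto_of_complete (cauchySeq_of_le_geometric_two (hGX X))
  choose g hg using hlim
  have hgd (k : ℕ) (X : V → Fin d) : ‖G k X - g X‖ ≤ 2 * δ / 2 ^ k := by
    rw [← dist_eq_norm]
    exact dist_le_of_le_geometric_two_of_tendsto (hGX X) (hg X) k
  have hge : g 0 = 0 := by
    refine tendsto_nhds_unique (hg 0) ?_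
    simp only [hGe]
    exact tendsto_const_nhds
  have hgn (x : V) : nb r t x g ≤ δ := by
    refine le_of_tendsto' (f := fun k => nb r t x (G k)) (x := atTop) ?_ fun k => hGn k x
    unfold nb
    exact tendsto_finsetSum _ fun X _ => ((hg X).norm.const_mul _).mul_const _
  refine ⟨g, hge, hgn, ?_⟩
  set C : ℝ := ∑ X : V → Fin d, ((sp X).card : ℝ) * r ^ t (sp X) with hC
  have hk (k : ℕ) (x : V) : nb r t x (fun X => G k X - g X) ≤ C * (2 * δ / 2 ^ k) := by
    unfold nb
    rw [hC, Finset.sum_mul]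
    refine (Finset.sum_le_sum fun X _ => ?_).trans
      (Finset.sum_le_sum_of_subset_of_nonneg (Finset.filter_subset _ _) fun X _ _ => by
        positivity)
    calc ((sp X).card : ℝ) * ‖G k X - g X‖ * r ^ t (sp X) ≤
        ((sp X).card : ℝ) * (2 * δ / 2 ^ k) * r ^ t (sp X) := by
          gcongr
          exact hgd k X
      _ = ((sp X).card : ℝ) * r ^ t (sp X) * (2 * δ / 2 ^ k) := by ring
  funext X
  by_cases hX : X = 0
  · subst hX
    rw [hT0, hge]
  · obtain ⟨x, hx⟩ := exists_ne hX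
    have h1 (k : ℕ) : ‖G (k + 1) X - T g X‖ ≤ C * (2 * δ / 2 ^ k) / 2 := by
      have h := hcon (G k) g _ (hGn k) hgn (hk k) x
      rw [← hGs] at h
      exact (le_nb hr t x (fun X => G (k + 1) X - T g X) X hx).trans h
    have h2 : Tendsto (fun k : ℕ => C * (2 * δ / 2 ^ k) / 2) atTop (𝓝 0) := by
      have h3 : Tendsto (fun k : ℕ => (C * (2 * δ) / 2) * (1 / 2 : ℝ) ^ k) atTop
          (𝓝 ((C * (2 * δ) / 2) * 0)) :=
        (tendsto_pow_atTop_nhds_zero_of_lt_one (by norm_num) (by norm_num)).const_mul _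
      rw [mul_zero] at h3
      refine h3.congr fun k => ?_
      rw [div_pow, one_pow]
      ring
    have h4 : Tendsto (fun k => G (k + 1) X - T g X) atTop (𝓝 0) :=
      squeeze_zero_norm h1 h2
    have h5 : Tendsto (fun k => G (k + 1) X) atTop (𝓝 (T g X)) := by
      have := h4.add_const (T g X)
      simpa using this
    exact tendsto_nhds_unique h5 ((tendsto_add_atTop_iff_nat 1).2 (hg X))

end Pool.Agent.Q237.KG.FX
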