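import Pool.Agent.Q234.KG.Stm

/-!
# Project KG, job N2: the operators in the equation for the excited states
(after Pool.Agent.Q73.KT.GA and Pool.Agent.Q193.KT.N2)
-/

set_option autoImplicit false

open scoped BigOperators
open Finset Filter Topology Pool.Agent.Q234.KG
open Pool.Agent.Q234.KT (IsSize)

namespace Pool.Agent.Q237.KG.N2

section

variable {V : Type} [Fintype V] [DecidableEq V] {d : ℕ} [NeZero d]

theorem co_add (F G : (V → Fin d) → ℂ) (m : V → Fin d) :
    co (fun σ => F σ + G σ) m = co F m + co G m := by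
  unfold co
  rw [← mul_add, ← Finset.sum_add_distrib]
  congr 1
  exact Finset.sum_congr rfl fun σ _ => by ring

theorem co_smul (c : ℂ) (F : (V → Fin d) → ℂ) (m : V → Fin d) :
    co (fun σ => c * F σ) m = c * co F m := by
  unfold co
  rw [mul_left_comm c, Finset.mul_sum (a := c)]
  congr 1
  exact Finset.sum_congr rfl fun σ _ => by ring

/-- the sum of the absolute values of the coefficients -/
noncomputable def l1 (F : (V → Fin d) → ℂ) : ℝ := ∑ m : V → Fin d, ‖co F m‖

theorem l1_nonneg (F : (V → Fin d) → ℂ) : 0 ≤ l1 F := Finset.sum_nonneg fun _ _ => norm_nonneg _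

theorem l1_mul (h : FourS) (F G : (V → Fin d) → ℂ) :
    l1 (fun σ => F σ * G σ) ≤ l1 F * l1 G := by
  obtain ⟨-, -, h3, -⟩ := h d V
  unfold l1
  calc ∑ k : V → Fin d, ‖co (fun σ => F σ * G σ) k‖
      ≤ ∑ k : V → Fin d, ∑ m : V → Fin d, ‖co F m‖ * ‖co G (k - m)‖ := by
        refine Finset.sum_le_sum fun k _ => ?_
        rw [h3]
        refine (norm_sum_le _ _).trans ?_
        exact Finset.sum_le_sum fun X _ => by rw [norm_mul]
    _ = ∑ m : V → Fin d, ‖co F m‖ * ∑ k : V → Fin d, ‖co G k‖ := by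
        rw [Finset.sum_comm]
        refine Finset.sum_congr rfl fun m _ => ?_
        rw [← Finset.mul_sum]
        congr 1
        exact Equiv.sum_comp (Equiv.subRight m) (fun k => ‖co G k‖)
    _ = (∑ m : V → Fin d, ‖co F m‖) * ∑ k : V → Fin d, ‖co G k‖ := by rw [Finset.sum_mul]

theorem l1_add (F G : (V → Fin d) → ℂ) : l1 (fun σ => F σ + G σ) ≤ l1 F + l1 G := by
  unfold l1
  rw [← Finset.sum_add_distrib]
  refine Finset.sum_le_sum fun X _ => ?_
  rw [co_add]
  exact norm_add_le _ _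

theorem l1_smul (c : ℂ) (F : (V → Fin d) → ℂ) : l1 (fun σ => c * F σ) = ‖c‖ * l1 F := by
  unfold l1
  rw [Finset.mul_sum]
  refine Finset.sum_congr rfl fun X _ => ?_
  rw [co_smul, norm_mul]

theorem ch_zero (σ : V → Fin d) : ch (0 : V → Fin d) σ = 1 := by
  unfold ch cr
  apply Finset.prod_eq_one
  intro v _
  simp

theorem l1_one (h : FourS) : l1 (fun _ : V → Fin d => (1 : ℂ)) ≤ 1 := by
  obtain ⟨-, h2, -⟩ := h d V
  have e : (fun _ : V → Fin d => (1 : ℂ)) =
      fun σ => ∑ m : V → Fin d, (if m = 0 then (1 : ℂ) else 0) * ch m σ := by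
    funext σ
    rw [Finset.sum_eq_single (0 : V → Fin d)]
    · rw [if_pos rfl, ch_zero, one_mul]
    · intro X _ hX
      rw [if_neg hX, zero_mul]
    · intro h
      exact absurd (Finset.mem_univ _) h
  unfold l1
  rw [e]
  simp only [h2]
  rw [Finset.sum_eq_single (0 : V → Fin d)]
  · simp
  · intro X _ hX
    rw [if_neg hX, norm_zero]
  · intro h
    exact absurd (Finset.mem_univ _) h

theorem l1_pow (h : FourS) (F : (V → Fin d) → ℂ) (n : ℕ) :
    l1 (fun σ => (1 + F σ) ^ n - 1) ≤ (1 + l1 F) ^ n - 1 := by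
  induction n with
  | zero =>
    have : (fun σ => (1 + F σ) ^ 0 - 1) = fun σ : V → Fin d => (0 : ℂ) * F σ := by
      funext σ
      ring
    rw [this, l1_smul]
    simp
  | succ n ih =>
    have e : (fun σ => (1 + F σ) ^ (n + 1) - 1) = fun σ : V → Fin d =>
        (((1 + F σ) ^ n - 1) + ((1 + F σ) ^ n - 1) * F σ) + F σ := by
      funext σ
      ring
    rw [e]
    have h1 := l1_add (fun σ => ((1 + F σ) ^ n - 1) + ((1 + F σ) ^ n - 1) * F σ) F
    have h2 := l1_add (fun σ => (1 + F σ) ^ n - 1) (fun σ => ((1 + F σ) ^ n - 1) * F σ)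
    have h3 := l1_mul h (fun σ => (1 + F σ) ^ n - 1) F
    have h4 := l1_nonneg F
    have h5 : l1 (fun σ => (1 + F σ) ^ n - 1) * l1 F ≤ ((1 + l1 F) ^ n - 1) * l1 F :=
      mul_le_mul_of_nonneg_right ih h4
    calc _ ≤ _ := h1
      _ ≤ (((1 + l1 F) ^ n - 1) + ((1 + l1 F) ^ n - 1) * l1 F) + l1 F := by linarith
      _ = (1 + l1 F) ^ (n + 1) - 1 := by ring

theorem l1_exp (h : FourS) (F : (V → Fin d) → ℂ) :
    l1 (fun σ => Complex.exp (F σ) - 1) ≤ Real.exp (l1 F) - 1 := by
  have t1 : Tendsto (fun n : ℕ => l1 (fun σ => (1 + F σ / n) ^ n - 1)) atTop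
      (𝓝 (l1 (fun σ => Complex.exp (F σ) - 1))) := by
    unfold l1
    refine tendsto_finsetSum _ fun X _ => Tendsto.norm ?_
    unfold co
    refine Tendsto.const_mul _ (tendsto_finsetSum _ fun σ _ => Tendsto.mul_const _ ?_)
    exact (Complex.tendsto_one_add_div_pow_exp (F σ)).sub_const 1
  have t2 : Tendsto (fun n : ℕ => (1 + l1 F / n) ^ n - 1) atTop (𝓝 (Real.exp (l1 F) - 1)) :=
    (Real.tendsto_one_add_div_pow_exp (l1 F)).sub_const 1
  refine le_of_tendsto_of_tendsto' t1 t2 fun n => ?_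
  have e : (fun σ => (1 + F σ / n) ^ n - 1) = fun σ : V → Fin d =>
      (1 + (n : ℂ)⁻¹ * F σ) ^ n - 1 := by
    funext σ
    rw [div_eq_inv_mul]
  rw [e]
  refine (l1_pow h _ n).trans ?_
  rw [l1_smul, norm_inv, Complex.norm_natCast, ← div_eq_inv_mul]

theorem l1_expF (h : FourS) (F : (V → Fin d) → ℂ) :
    l1 (fun σ => Complex.exp (F σ)) ≤ Real.exp (l1 F) := by
  have e : (fun σ => Complex.exp (F σ)) = fun σ : V → Fin d => (Complex.exp (F σ) - 1) + 1 := by
    funext σ
    ring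
  rw [e]
  have h1 := l1_add (fun σ => Complex.exp (F σ) - 1) (fun _ : V → Fin d => (1 : ℂ))
  have h2 := l1_exp h F
  have h3 := l1_one h (V := V) (d := d)
  linarith

theorem co_Gp (h : FourS) (g : (V → Fin d) → ℂ) (c k : V → Fin d) :
    co (fun σ => Gp g c σ) k = g k * (ch k c - 1) := by
  obtain ⟨-, h2, -⟩ := h d V
  exact h2 (fun m => g m * (ch m c - 1)) k

theorem l1_Gp_le (h : FourS) (g : (V → Fin d) → ℂ) (c : V → Fin d) (δ : ℝ)
    (hδ : ∀ x, ∑ m ∈ univ.filter (fun m : V → Fin d => m x ≠ 0), ‖g m‖ ≤ δ) :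
    l1 (fun σ => Gp g c σ) ≤ 2 * ((sp c).card * δ) := by
  obtain ⟨-, -, -, -, -, -, -, h8, h9, -⟩ := h d V
  unfold l1
  simp only [co_Gp h]
  have h1 : ∀ m : V → Fin d, ‖g m * (ch m c - 1)‖ ≤
      ∑ v ∈ sp c, if m v ≠ 0 then 2 * ‖g m‖ else 0 := by
    intro m
    by_cases hm : ∀ v, m v = 0 ∨ c v = 0
    · rw [h9 m c hm, sub_self, mul_zero, norm_zero]
      apply Finset.sum_nonneg
      intro v _
      split_ifs <;> positivity
    · push Not at hm
      obtain ⟨v, hv1, hv2⟩ := hm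
      have h2 : ‖g m * (ch m c - 1)‖ ≤ 2 * ‖g m‖ := by
        rw [norm_mul, mul_comm]
        apply mul_le_mul_of_nonneg_right _ (norm_nonneg _)
        refine (norm_sub_le _ _).trans ?_
        rw [h8 m c, norm_one]
        norm_num
      have h4 := Finset.single_le_sum (f := fun v => if m v ≠ 0 then 2 * ‖g m‖ else 0)
        (s := sp c) (fun w _ => by
          show 0 ≤ if m w ≠ 0 then 2 * ‖g m‖ else 0
          split_ifs <;> positivity) (Finset.mem_filter.2 ⟨Finset.mem_univ v, hv2⟩)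
      simp only [if_pos hv1] at h4
      exact h2.trans h4
  calc ∑ m : V → Fin d, ‖g m * (ch m c - 1)‖
      ≤ ∑ m : V → Fin d, ∑ v ∈ sp c, if m v ≠ 0 then 2 * ‖g m‖ else 0 :=
        Finset.sum_le_sum fun m _ => h1 m
    _ = ∑ v ∈ sp c, 2 * ∑ m ∈ univ.filter (fun m : V → Fin d => m v ≠ 0), ‖g m‖ := by
        rw [Finset.sum_comm]
        apply Finset.sum_congr rfl
        intro v _
        rw [← Finset.sum_filter, Finset.mul_sum]
    _ ≤ ∑ _v ∈ sp c, 2 * δ := Finset.sum_le_sum fun v _ => by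
        have := hδ v
        linarith
    _ = 2 * ((sp c).card * δ) := by
        rw [Finset.sum_const, nsmul_eq_mul]
        ring

theorem card_sub (B : Finset V) :
    (univ.filter fun m : V → Fin d => sp m ⊆ B).card ≤ d ^ B.card := by
  have h1 : (univ.filter fun m : V → Fin d => sp m ⊆ B) ⊆
      Fintype.piFinset (fun v => if v ∈ B then (univ : Finset (Fin d)) else {0}) := by
    intro m hm
    rw [Fintype.mem_piFinset]
    intro v
    by_cases hv : v ∈ B
    · rw [if_pos hv]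
      exact Finset.mem_univ _
    · rw [if_neg hv, Finset.mem_singleton]
      by_contra h0
      exact hv ((Finset.mem_filter.1 hm).2 (Finset.mem_filter.2 ⟨Finset.mem_univ v, h0⟩))
  refine (Finset.card_le_card h1).trans (le_of_eq ?_)
  rw [Fintype.card_piFinset]
  have h2 : ∀ v : V, (if v ∈ B then (univ : Finset (Fin d)) else {0}).card =
      if v ∈ B then d else 1 := by
    intro v
    split_ifs
    · rw [Finset.card_univ, Fintype.card_fin]
    · rw [Finset.card_singleton]
  rw [Finset.prod_congr rfl fun v _ => h2 v, Finset.prod_ite, Finset.prod_const,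
    Finset.prod_const_one, mul_one]
  congr 1
  rw [Finset.filter_mem_eq_inter, Finset.univ_inter]

theorem l1_w {J : Type} [Fintype J] {b m : ℕ} {t : Finset V → ℕ} {c : J → V → Fin d}
    {B : J → Finset V} {w : J → (V → Fin d) → ℂ} {ω : ℝ} (ht : IsSize t) (hω : 0 ≤ ω)
    (hp : IsPert b m t c B w ω) (j : J) : l1 (w j) ≤ (d : ℝ) ^ b * ω := by
  unfold l1
  have h1 : ∑ k : V → Fin d, ‖co (w j) k‖ =
      ∑ k ∈ univ.filter (fun k : V → Fin d => sp k ⊆ B j), ‖co (w j) k‖ := by
    symm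
    refine Finset.sum_subset (Finset.subset_univ _) fun k _ hk => ?_
    rw [hp.supp j k (fun h => hk (Finset.mem_filter.2 ⟨Finset.mem_univ k, h⟩)), norm_zero]
  have hd : (1 : ℝ) ≤ d := by exact_mod_cast NeZero.one_le
  rw [h1]
  calc _ ≤ ∑ _k ∈ univ.filter (fun k : V → Fin d => sp k ⊆ B j), ω :=
        Finset.sum_le_sum fun k _ => hp.bd j k
    _ = (univ.filter (fun k : V → Fin d => sp k ⊆ B j)).card * ω := by
        rw [Finset.sum_const, nsmul_eq_mul]
    _ ≤ (d : ℝ) ^ (B j).card * ω := by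
        refine mul_le_mul_of_nonneg_right ?_ hω
        exact_mod_cast card_sub (B j)
    _ ≤ (d : ℝ) ^ b * ω := by
        refine mul_le_mul_of_nonneg_right ?_ hω
        exact pow_le_pow_right₀ hd ((ht.card _).trans (hp.size j))

end

/-- L1S -/
theorem main (h : FourS) : L1S := by
  intro d _ b m
  refine ⟨m * ((d : ℝ) ^ b * Real.exp (b / 16)) + 1, by positivity, ?_⟩
  intro V _ _ J _ t c B w ω g ht hω hp hg x
  have key : ∀ j, ∑ k : V → Fin d, ‖co (fun σ => w j σ * Complex.exp (Gp g (c j) σ)) k‖ ≤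
      (d : ℝ) ^ b * Real.exp (b / 16) * ω := by
    intro j
    have h1 := l1_mul h (w j) (fun σ => Complex.exp (Gp g (c j) σ))
    have h2 := l1_w ht hω hp j
    have h3 := l1_expF h (fun σ => Gp g (c j) σ)
    have h4 : l1 (fun σ => Gp g (c j) σ) ≤ b / 16 := by
      have h5 := l1_Gp_le h g (c j) (1 / 32) hg
      have h6 : ((sp (c j)).card : ℝ) ≤ b := by
        have := (Finset.card_le_card (hp.sub j)).trans ((ht.card _).trans (hp.size j))
        exact_mod_cast this
      linarith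
    have h8 : l1 (fun σ => Complex.exp (Gp g (c j) σ)) ≤ Real.exp (b / 16) :=
      h3.trans (Real.exp_le_exp.2 h4)
    calc _ ≤ l1 (w j) * l1 (fun σ => Complex.exp (Gp g (c j) σ)) := h1
      _ ≤ ((d : ℝ) ^ b * ω) * Real.exp (b / 16) :=
        mul_le_mul h2 h8 (l1_nonneg _) (by positivity)
      _ = _ := by ring
  calc _ ≤ ∑ j ∈ univ.filter (fun j => x ∈ B j), (d : ℝ) ^ b * Real.exp (b / 16) * ω :=
        Finset.sum_le_sum fun j _ => key j
    _ = (univ.filter (fun j => x ∈ B j)).card * ((d : ℝ) ^ b * Real.exp (b / 16) * ω) := by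
        rw [Finset.sum_const, nsmul_eq_mul]
    _ ≤ m * ((d : ℝ) ^ b * Real.exp (b / 16) * ω) := by
        refine mul_le_mul_of_nonneg_right ?_ (by positivity)
        exact_mod_cast hp.mult x
    _ ≤ _ := by nlinarith

end Pool.Agent.Q237.KG.N2
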